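import Mathlib
import Pool.Agent.X184.SS.Asm3
import Pool.Agent.X224.SS.Uni
import Pool.Agent.X153.SS.HER
import Pool.Agent.X267.SS.KH1
import Pool.Agent.X122.KH
import Pool.Agent.X181.SS.EX
import Pool.Agent.X267.SS.JOINT
import Pool.Agent.X107.SP.SYS
import Pool.Agent.X56.SP.Lem

/-!
# The closure of the `c₀`-factorable operators is smaller than the intersection of the spatial ideals

For every `n ≥ 1` there is an operator `S` on the Schreier space `X[S_n]` that belongs to the ideal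
generated by the basis projection `P_N` for every infinite set `N`, but `‖S - A B‖ ≥ 1` for all operators
`B : X[S_n] → c₀` and `A : c₀ → X[S_n]`.

Method. For every infinite `N` the space spanned by `e_j`, `j ∈ N`, contains a complemented copy of
`Y = (⊕_i ℓ_1^i)_{c₀}`: the `i`-th block is spanned by `i + 1` disjointly supported averages whose supports
have their union in `S_n` and which are so flat that a member of `S_n` that meets an earlier block sees
only a small part of them. `S` is a projection of `X[S_n]` onto such a copy of `Y`. It factors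
through the copies in all the other subspaces. By Khintchine's inequality the trace of an operator on `ℓ_1^p`
that factors through `c₀` is at most `√(3 p)` times the norms, which gives the distance.
-/

set_option autoImplicit false

namespace Pool.Agent.Results.MP_a8437e_an.ProperInclusion

open Pool.Agent.X184.SS

/-- `X`, with `ι : c₀₀ → X`, is the Schreier space of order `n`: the completion of the space `c₀₀` of
finitely supported sequences for the norm `x ↦ sup_{F ∈ S_n} ∑_{j ∈ F} |x j|`. (The families `Sch n` and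
the sequences are indexed by `ℕ = {0, 1, …}`, the index `j` standing for the positive integer `j + 1`.) -/
def IsSchreierSpace (n : ℕ) {X : Type} [NormedAddCommGroup X] [NormedSpace ℝ X]
    (ι : (ℕ →₀ ℝ) →ₗ[ℝ] X) : Prop :=
  CompleteSpace X ∧ DenseRange ι ∧ ∀ x, ‖ι x‖ = schNorm n x

open Classical in
/-- the coordinate projection on `c₀₀` -/
noncomputable def filterMap (N : Set ℕ) : (ℕ →₀ ℝ) →ₗ[ℝ] (ℕ →₀ ℝ) where
  toFun x := x.filter (· ∈ N)
  map_add' _ _ := Finsupp.filter_add
  map_smul' _ _ := Finsupp.filter_smul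

open Classical in
theorem exists_proj {n : ℕ} {X : Type} [NormedAddCommGroup X] [NormedSpace ℝ X] [CompleteSpace X]
    {ι : (ℕ →₀ ℝ) →ₗ[ℝ] X} (hd : DenseRange ι) (hn : ∀ x, ‖ι x‖ = schNorm n x) (N : Set ℕ) :
    ∃ P : X →L[ℝ] X, IsBasisProj ι N P := by
  have hb : ∃ C : ℝ, ∀ x, ‖(ι ∘ₗ filterMap N) x‖ ≤ C * ‖ι x‖ := by
    refine ⟨1, fun x => ?_⟩
    rw [one_mul, LinearMap.comp_apply, hn, hn]
    refine schNorm_le _ fun F hF => ?_
    refine le_trans (Finset.sum_le_sum fun j _ => ?_) (le_schNorm x hF)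
    show |(x.filter (· ∈ N)) j| ≤ |x j|
    rw [Finsupp.filter_apply]
    split_ifs
    · exact le_rfl
    · rw [abs_zero]; exact abs_nonneg _
  have e : ∀ x, ((ι ∘ₗ filterMap N).extendOfNorm ι) (ι x) = ι (filterMap N x) :=
    fun x => LinearMap.extendOfNorm_eq hd hb x
  refine ⟨(ι ∘ₗ filterMap N).extendOfNorm ι, fun j hj => ?_, fun j hj => ?_⟩
  · rw [e]
    congr 1
    show (Finsupp.single j (1 : ℝ)).filter (· ∈ N) = _
    rw [Finsupp.filter_single_of_pos _ hj]
  · rw [e]
    have : filterMap N (Finsupp.single j (1 : ℝ)) = 0 := by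
      show (Finsupp.single j (1 : ℝ)).filter (· ∈ N) = _
      rw [Finsupp.filter_single_of_neg _ hj]
    rw [this, map_zero]

theorem result (n : ℕ) (hn : 1 ≤ n) :
    (∃ (X : Type) (_ : NormedAddCommGroup X) (_ : NormedSpace ℝ X) (ι : (ℕ →₀ ℝ) →ₗ[ℝ] X),
      IsSchreierSpace n ι) ∧
    ∀ (X : Type) [NormedAddCommGroup X] [NormedSpace ℝ X] (ι : (ℕ →₀ ℝ) →ₗ[ℝ] X),
      IsSchreierSpace n ι →
      (∀ N : Set ℕ, ∃ P : X →L[ℝ] X, IsBasisProj ι N P) ∧
      ∃ S : X →L[ℝ] X,
        (∀ N : Set ℕ, N.Infinite → ∀ P : X →L[ℝ] X, IsBasisProj ι N P →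
          (∃ A B : X →L[ℝ] X, S = A.comp (P.comp B)) ∧
          ∀ I : TwoSidedIdeal (X →L[ℝ] X), P ∈ I → S ∈ I) ∧
        (∀ (A : ZeroAtInftyContinuousMap ℕ ℝ →L[ℝ] X) (B : X →L[ℝ] ZeroAtInftyContinuousMap ℕ ℝ),
          1 ≤ ‖S - A.comp B‖) ∧
        S ∉ closure {S : X →L[ℝ] X | ∃ (A : ZeroAtInftyContinuousMap ℕ ℝ →L[ℝ] X)
          (B : X →L[ℝ] ZeroAtInftyContinuousMap ℕ ℝ), S = A.comp B} := by
  constructor
  · obtain ⟨X, h1, h2, h3, ι, h4, h5⟩ := Pool.Agent.X181.SS.t_EX n
    exact ⟨X, h1, h2, ι, h3, h4, h5⟩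
  · intro X _ _ ι hι
    obtain ⟨hc, hd, hnorm⟩ := hι
    obtain ⟨k, rfl⟩ : ∃ k, n = k + 1 := ⟨n - 1, by omega⟩
    have huni := Pool.Agent.X224.SS.t_UNI
    have hher := Pool.Agent.X153.SS.t_HER huni
    have hkh := X122KH.t_KH Pool.Agent.X267.SS.t_KH1
    have hjoint : Joint := Pool.Agent.X267.SS.t_JOINT huni hher (Pool.Agent.X56.SP.t_LEM huni hher)
    have hsys := fun N hN => Pool.Agent.X107.SP.SYS.t_SYS hher hjoint k N hN
    obtain ⟨z, hz⟩ := hsys Set.univ Set.infinite_univ
    have hdist := dist_ge' hd hnorm hz hkh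
    refine ⟨fun N => exists_proj hd hnorm N, R ι z z, fun N hN P hP => ?_,
      fun A B => hdist A B, fun hcl => ?_⟩
    · obtain ⟨z', hz'⟩ := hsys N hN
      have hf := factor hd hnorm hz hz' hP
      refine ⟨⟨R ι z' z, R ι z z', hf⟩, fun I hI => ?_⟩
      rw [hf]
      exact I.mul_mem_left _ _ (I.mul_mem_right _ _ hI)
    · obtain ⟨S, ⟨A, B, rfl⟩, hS⟩ := Metric.mem_closure_iff.1 hcl 1 one_pos
      rw [dist_eq_norm] at hS
      exact absurd hS (not_lt.2 (hdist A B))

end Pool.Agent.Results.MP_a8437e_an.ProperInclusion
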